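import Pool.Agent.H53.CZ.Targets

namespace Pool.Agent.H18.CZ

open Finset Pool.Agent.H53.CZD

open Classical in
theorem card_lin {I ι : Type} [Fintype I] [DecidableEq I] [Fintype ι] [DecidableEq ι]
    (N : Finset (ι → ZMod 2)) (z : I → ZMod 2) (i0 : I) (hz : z i0 ≠ 0) (c : ι → ZMod 2) :
    #{f ∈ (Fintype.piFinset fun _ : I => N) | ∑ i, z i • f i = c} ≤
      #N ^ (Fintype.card I - 1) := by
  have h1 : #(Fintype.piFinset fun _ : {j : I // j ≠ i0} => N) = #N ^ (Fintype.card I - 1) := by
    rw [Fintype.card_piFinset, Finset.prod_const, Finset.card_univ]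
    congr 1
    rw [Fintype.card_subtype_compl, Fintype.card_subtype_eq]
  rw [← h1]
  apply Finset.card_le_card_of_injOn (fun f j => f j.1)
  · intro f hf
    simp only [Finset.coe_filter, Set.mem_ofPred_eq, Fintype.mem_piFinset] at hf
    simp only [Finset.mem_coe, Fintype.mem_piFinset]
    intro j
    exact hf.1 j.1
  · intro f hf g hg hfg
    simp only [Finset.coe_filter, Set.mem_ofPred_eq, Fintype.mem_piFinset] at hf hg
    have hoff : ∀ j, j ≠ i0 → f j = g j := fun j hj => congrFun hfg ⟨j, hj⟩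
    have hz1 : z i0 = 1 := by
      have : ∀ a : ZMod 2, a ≠ 0 → a = 1 := by decide
      exact this _ hz
    have hs : ∑ i, z i • f i = ∑ i, z i • g i := by rw [hf.2, hg.2]
    rw [← Finset.add_sum_erase _ _ (Finset.mem_univ i0),
      ← Finset.add_sum_erase _ (fun i => z i • g i) (Finset.mem_univ i0)] at hs
    have hr : ∑ i ∈ Finset.univ.erase i0, z i • f i = ∑ i ∈ Finset.univ.erase i0, z i • g i := by
      apply Finset.sum_congr rfl
      intro i hi
      rw [hoff i (Finset.ne_of_mem_erase hi)]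
    rw [hr] at hs
    have h0 := add_right_cancel hs
    rw [hz1, one_smul, one_smul] at h0
    funext j
    by_cases hj : j = i0
    · rw [hj]; exact h0
    · exact hoff j hj

open Classical in
/-- DEP -/
theorem dep : DEP := by
  intro ι _ _ N v q
  have hkey : ∀ (z : (Fin q ⊕ Fin q) → ZMod 2), z ≠ 0 → ∀ c : ι → ZMod 2,
      #{p ∈ (Fintype.piFinset fun _ : Fin q => N) ×ˢ (Fintype.piFinset fun _ : Fin q => N) |
        (∑ i, z (Sum.inl i) • p.1 i) + (∑ j, z (Sum.inr j) • p.2 j) = c} ≤
        #N ^ (2 * q - 1) := by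
    intro z hz c
    obtain ⟨i0, hi0⟩ : ∃ i, z i ≠ 0 := by
      by_contra h
      push Not at h
      exact hz (funext h)
    have h := card_lin N z i0 hi0 c
    rw [Fintype.card_sum, Fintype.card_fin, ← two_mul] at h
    refine le_trans ?_ h
    apply Finset.card_le_card_of_injOn (fun p => Sum.elim p.1 p.2)
    · intro p hp
      simp only [Finset.coe_filter, Set.mem_ofPred_eq, Finset.mem_product,
        Fintype.mem_piFinset] at hp
      simp only [Finset.coe_filter, Set.mem_ofPred_eq, Fintype.mem_piFinset]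
      refine ⟨?_, ?_⟩
      · rintro (i | i)
        · exact hp.1.1 i
        · exact hp.1.2 i
      · rw [Fintype.sum_sum_type]
        exact hp.2
    · rintro ⟨a, b⟩ - ⟨a', b'⟩ - hab
      have h1 : a = a' := by
        funext i
        exact congrFun hab (Sum.inl i)
      have h2 : b = b' := by
        funext i
        exact congrFun hab (Sum.inr i)
      rw [h1, h2]
  have hsub : {p ∈ (Fintype.piFinset fun _ : Fin q => N) ×ˢ (Fintype.piFinset fun _ : Fin q => N) |
        ∃ x y : Fin q → ZMod 2, ¬ (x = 0 ∧ y = 0) ∧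
          ((∑ i, x i • p.1 i) + (∑ j, y j • p.2 j) = 0 ∨
           (∑ i, x i • p.1 i) + (∑ j, y j • p.2 j) = v)} ⊆
      ((Finset.univ : Finset ((Fin q ⊕ Fin q) → ZMod 2)).filter (· ≠ 0) ×ˢ
        ({0, v} : Finset (ι → ZMod 2))).biUnion (fun zc =>
          {p ∈ (Fintype.piFinset fun _ : Fin q => N) ×ˢ (Fintype.piFinset fun _ : Fin q => N) |
            (∑ i, zc.1 (Sum.inl i) • p.1 i) + (∑ j, zc.1 (Sum.inr j) • p.2 j) = zc.2}) := by
    intro p hp
    rw [Finset.mem_filter] at hp
    obtain ⟨hpN, x, y, hxy, hc⟩ := hp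
    have hne : Sum.elim x y ≠ (0 : (Fin q ⊕ Fin q) → ZMod 2) := by
      intro h0
      apply hxy
      exact ⟨funext fun i => congrFun h0 (Sum.inl i), funext fun i => congrFun h0 (Sum.inr i)⟩
    rw [Finset.mem_biUnion]
    rcases hc with hc | hc
    · refine ⟨(Sum.elim x y, 0), ?_, ?_⟩
      · simp [hne]
      · rw [Finset.mem_filter]
        exact ⟨hpN, by simpa using hc⟩
    · refine ⟨(Sum.elim x y, v), ?_, ?_⟩
      · simp [hne]
      · rw [Finset.mem_filter]
        exact ⟨hpN, by simpa using hc⟩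
  refine le_trans (Finset.card_le_card hsub) ?_
  refine le_trans Finset.card_biUnion_le ?_
  refine le_trans (Finset.sum_le_card_nsmul _ _ (#N ^ (2 * q - 1)) ?_) ?_
  · rintro ⟨z, c⟩ hzc
    simp only [Finset.mem_product, Finset.mem_filter, Finset.mem_univ, true_and] at hzc
    exact hkey z hzc.1 c
  · rw [smul_eq_mul, Finset.card_product]
    apply Nat.mul_le_mul_right
    have h1 : #((Finset.univ : Finset ((Fin q ⊕ Fin q) → ZMod 2)).filter (· ≠ 0)) ≤ 2 ^ (2 * q) := by
      refine le_trans (Finset.card_filter_le _ _) ?_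
      rw [Finset.card_univ, Fintype.card_fun, Fintype.card_sum, Fintype.card_fin, ZMod.card,
        ← two_mul]
    have h2 : #({0, v} : Finset (ι → ZMod 2)) ≤ 2 := Finset.card_le_two
    calc _ ≤ 2 ^ (2 * q) * 2 := Nat.mul_le_mul h1 h2
      _ = 2 ^ (2 * q + 1) := by rw [pow_succ]

end Pool.Agent.H18.CZ
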