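import Pool.Agent.H53.CZ.Targets

namespace Pool.Agent.H18.CZ

open Finset Pool.Agent.H53.CZD

theorem min_eq_card (a b K : ℕ) (ha : a ≤ K) :
    min a b = ∑ k ∈ Finset.Icc 1 K, (if k ≤ a ∧ k ≤ b then 1 else 0) := by
  rw [← Finset.card_filter]
  have : (Finset.Icc 1 K).filter (fun k => k ≤ a ∧ k ≤ b) = Finset.Icc 1 (min a b) := by
    ext k
    simp only [Finset.mem_filter, Finset.mem_Icc]
    omega
  rw [this]
  simp

theorem eq_card (a K : ℕ) (ha : a ≤ K) :
    a = ∑ k ∈ Finset.Icc 1 K, (if k ≤ a then 1 else 0) := by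
  rw [← Finset.card_filter]
  have : (Finset.Icc 1 K).filter (fun k => k ≤ a) = Finset.Icc 1 a := by
    ext k
    simp only [Finset.mem_filter, Finset.mem_Icc]
    omega
  rw [this]
  simp

theorem add_self_vec {ι : Type} (u : ι → ZMod 2) : u + u = 0 := by
  funext i
  exact CharTwo.add_self_eq_zero (u i)

theorem ecount_units {ι : Type} [Fintype ι] [DecidableEq ι] (T : Finset ι)
    (Y : Finset (ι → ZMod 2)) :
    ecount (units T) Y = ∑ t ∈ T, #{u ∈ Y | u + Pi.single t 1 ∈ Y} := by
  unfold ecount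
  rw [← Finset.card_sigma]
  symm
  apply Finset.card_bij (fun (x : Σ _ : ι, (ι → ZMod 2)) _ => (x.2, x.2 + Pi.single x.1 1))
  · rintro ⟨t, u⟩ h
    simp only [Finset.mem_sigma, Finset.mem_filter] at h
    simp only [Finset.mem_filter, Finset.mem_product]
    refine ⟨⟨h.2.1, h.2.2⟩, ?_⟩
    rw [← add_assoc, add_self_vec, zero_add]
    exact Finset.mem_image_of_mem _ h.1
  · rintro ⟨t, u⟩ h ⟨t', u'⟩ h' heq
    simp only [Prod.mk.injEq] at heq
    obtain ⟨h1, h2⟩ := heq
    subst h1
    have h3 : (Pi.single t 1 : ι → ZMod 2) = Pi.single t' 1 := add_left_cancel h2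
    have h4 : t = t' := by
      by_contra hne
      have := congrFun h3 t
      rw [Pi.single_eq_same, Pi.single_eq_of_ne hne] at this
      exact one_ne_zero this
    subst h4
    rfl
  · rintro ⟨a, b⟩ h
    simp only [Finset.mem_filter, Finset.mem_product, units, Finset.mem_image] at h
    obtain ⟨⟨ha, hb⟩, t, ht, hab⟩ := h
    have hb' : a + Pi.single t 1 = b := by
      rw [hab, ← add_assoc, add_self_vec, zero_add]
    refine ⟨⟨t, a⟩, ?_, ?_⟩
    · simp only [Finset.mem_sigma, Finset.mem_filter]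
      exact ⟨ht, ha, by rw [hb']; exact hb⟩
    · simp only [hb']

theorem wt_le {ι : Type} [Fintype ι] [DecidableEq ι] (C : Finset (ι → ZMod 2)) (T : Finset ι)
    (u : ι → ZMod 2) : wt C T u ≤ #C := Finset.card_filter_le _ _

/-- LC -/
theorem lcake : Pool.Agent.H53.CZD.LC := by
  intro ι _ _ C T R hR
  have h1 : ∑ t ∈ T, edgeWt C T t =
      ∑ k ∈ Finset.Icc 1 (#C), ecount (units T) ((tr C T).filter (fun u => k ≤ wt C T u)) := by
    simp only [ecount_units]
    rw [Finset.sum_comm]
    apply Finset.sum_congr rfl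
    intro t _
    unfold edgeWt
    rw [Finset.sum_congr rfl (fun u _ => min_eq_card _ _ (#C) (wt_le C T u)), Finset.sum_comm]
    apply Finset.sum_congr rfl
    intro k _
    rw [← Finset.card_filter]
    congr 1
    ext u
    simp only [Finset.mem_filter]
    tauto
  rw [h1]
  refine le_trans (Finset.sum_le_sum fun k _ => hR _ (Finset.filter_subset _ _)) ?_
  rw [← Finset.mul_sum]
  apply Nat.mul_le_mul_left
  simp only [Finset.card_filter]
  rw [Finset.sum_comm]
  rw [Finset.sum_congr rfl (fun u _ => (eq_card _ (#C) (wt_le C T u)).symm)]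
  apply le_of_eq
  unfold wt tr
  rw [← Finset.card_eq_sum_card_image]

end Pool.Agent.H18.CZ
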